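import Pool.Agent.Lib.Sims.M.WData

/-!
# The edge and face conditions
-/

namespace Pool.Agent.Lib.Sims.M

open Pool.Agent.Lib.VK

theorem st_hu : ∀ p, (840 : ℤ) ≤ CX.len p * uX (CX.len p) := by decide +kernel

/-- the edge check -/
def chkE : Bool :=
  (List.range 56).all fun p => (List.range 56).all fun q =>
    !decide (dc (labN q) = bar (dc (labN p))) ||
    (el (cd (dc (labN p)))).all fun k => decide ((k.1, q) ∈ fbL p) ||
      decide (wN p k.1 q + piN (prvN p) + wN q (invN k.2) p + piN (prvN q) + 840 / lenN p +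
        840 / lenN q ≤ 840 + piN q + piN p)

theorem chkE_ok : chkE = true := by decide +kernel

theorem st_he (p q : Fin 56) (κ κ' : HH) (h : CX.Tw (CX.lab p) κ κ') (h1 : CX.Adm FF p κ q)
    (_ : CX.Adm FF q κ'⁻¹ p) :
    WX p κ q + WX q κ'⁻¹ p + uX (CX.len p) + uX (CX.len q) ≤ 840 := by
  have c := chkE_ok
  simp only [chkE, List.all_eq_true, List.mem_range, Bool.or_eq_true, Bool.not_eq_true',
    decide_eq_false_iff_not, decide_eq_true_eq] at c
  have c2 := ((c _ p.isLt _ q.isLt).resolve_left (not_not.2 h1.2.1) _ h).resolve_left h1.2.2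
  dsimp only at c2
  simp only [WX, WW, uX, val_inv]
  change _ + ((840 / lenN p.val : ℕ) : ℤ) + ((840 / lenN q.val : ℕ) : ℤ) ≤ 840
  omega

end Pool.Agent.Lib.Sims.M
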