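import Pool.Agent.Lib.Sims.M.Defs

/-!
# The Heisenberg quotient, which refutes the self-gluings
-/

namespace Pool.Agent.Lib.Sims.M

open Pool.Agent.Lib.VK

/-- the Heisenberg group over `ZMod 3` -/
@[ext] structure Heis where
  a : ZMod 3
  b : ZMod 3
  c : ZMod 3
  deriving DecidableEq

instance : Mul Heis := ⟨fun x y => ⟨x.a + y.a, x.b + y.b, x.c + y.c + x.a * y.b⟩⟩
instance : One Heis := ⟨⟨0, 0, 0⟩⟩
instance : Inv Heis := ⟨fun x => ⟨-x.a, -x.b, x.a * x.b - x.c⟩⟩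

theorem Heis.mul_def (x y : Heis) : x * y = ⟨x.a + y.a, x.b + y.b, x.c + y.c + x.a * y.b⟩ := rfl
theorem Heis.one_def : (1 : Heis) = ⟨0, 0, 0⟩ := rfl
theorem Heis.inv_def (x : Heis) : x⁻¹ = ⟨-x.a, -x.b, x.a * x.b - x.c⟩ := rfl

instance : Group Heis := Group.ofLeftAxioms
  (fun x y z => by ext <;> simp only [Heis.mul_def] <;> ring)
  (fun x => by ext <;> simp only [Heis.mul_def, Heis.one_def] <;> ring)
  fun x => by ext <;> simp only [Heis.mul_def, Heis.one_def, Heis.inv_def] <;> ring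

/-- `b` goes to `y`, the virtual edges die -/
def fx (i : Fin 3) : Heis := if i = 0 then ⟨0, 1, 0⟩ else 1

def fvN (v : ℕ) : Heis :=
  ⟨(2 * (v % 57) + v / 57 + v / 171 : ℕ), 0, (2 * (v % 57) + v / 171 : ℕ)⟩

theorem mulN_c3 (a b : ℕ) : mulN a b % 57 % 3 = (a % 57 + b % 57) % 3 := by
  rw [mulN_c]
  have ha : a / 57 % 3 = 0 ∨ a / 57 % 3 = 1 ∨ a / 57 % 3 = 2 := by omega
  rcases ha with ha | ha | ha <;> rw [ha] <;> norm_num <;> omega

theorem cast_eq {m x y : ℕ} (h : m % 3 = (x + y) % 3) : (m : ZMod 3) = x + y := by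
  rw [← Nat.cast_add]
  exact (ZMod.natCast_eq_natCast_iff' _ _ 3).2 h

theorem fvN_mul (a b : ℕ) : fvN (mulN a b) = fvN a * fvN b := by
  have h1 := mulN_c3 a b
  have h2 := mulN_e a b
  have h3 := mulN_f a b
  generalize mulN a b = m at *
  have h4 : (2 * (m % 57) + m / 171) % 3 = (2 * (a % 57) + a / 171 + (2 * (b % 57) + b / 171)) % 3 := by
    generalize m % 57 = m1, a % 57 = a1, b % 57 = b1, m / 171 = m2, a / 171 = a2, b / 171 = b2 at *
    omega
  have h5 : (2 * (m % 57) + m / 57 + m / 171) % 3 =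
      (2 * (a % 57) + a / 57 + a / 171 + (2 * (b % 57) + b / 57 + b / 171)) % 3 := by
    generalize m % 57 = m1, a % 57 = a1, b % 57 = b1, m / 171 = m2, a / 171 = a2, b / 171 = b2,
      m / 57 = m3, a / 57 = a3, b / 57 = b3 at *
    omega
  rw [fvN, fvN, fvN, Heis.mul_def, cast_eq h4, cast_eq h5]
  simp only [add_zero, mul_zero]

/-- `a₀` goes to `x` -/
def fv : HH →* Heis := MonoidHom.mk' (fun v => fvN v.val) fun a b => fvN_mul a.val b.val

theorem hx_aux : ∀ e : Fin 3 × Bool, ∀ r ∈ el (cd e), fvN r.1 * ex fx e = ex fx e * fvN r.2 := by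
  decide +kernel

theorem st_hx : ∀ e k k', CX.Tw e k k' → fv k * ex fx e = ex fx e * fv k' :=
  fun e _ _ h => hx_aux e _ h

theorem hc_aux : ∀ p : Fin 56, CX.U fx fv p (CX.len p) = 1 := by decide +kernel

theorem st_hc : ∀ p, CX.nxt^[CX.len p] p = p → CX.U fx fv p (CX.len p) = 1 := fun p _ => hc_aux p

theorem hF2_aux : ∀ p : Fin 56, ∀ r ∈ fbL p.val, ∀ j < CX.len p, 0 < j → (CX.nxt^[j] p).val = r.2 →
    CX.U fx fv p j ≠ fvN r.1 * ex fx (CX.lab p) := by decide +kernel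

theorem st_hF2 : ∀ p κ q, FF p κ q → ∀ j, 0 < j → j < CX.len p → CX.nxt^[j] p = q →
    CX.U fx fv p j ≠ fv κ * ex fx (CX.lab p) :=
  fun p _ _ h j h0 h1 e => hF2_aux p _ h j h1 h0 (congrArg Fin.val e)

end Pool.Agent.Lib.Sims.M
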