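import Pool.Agent.Lib.Sims.M.PT

/-!
# The arc checks, part 1
-/

namespace Pool.Agent.Lib.Sims.M

theorem chk_14 : chk 10 PT wN 14 = true := by decide +kernel

theorem chk_15 : chk 10 PT wN 15 = true := by decide +kernel

theorem chk_16 : chk 10 PT wN 16 = true := by decide +kernel

theorem chk_17 : chk 10 PT wN 17 = true := by decide +kernel

theorem chk_18 : chk 10 PT wN 18 = true := by decide +kernel

theorem chk_19 : chk 10 PT wN 19 = true := by decide +kernel

theorem chk_20 : chk 10 PT wN 20 = true := by decide +kernel

theorem chk_21 : chk 10 PT wN 21 = true := by decide +kernel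

theorem chk_22 : chk 10 PT wN 22 = true := by decide +kernel

theorem chk_23 : chk 10 PT wN 23 = true := by decide +kernel

theorem chk_24 : chk 10 PT wN 24 = true := by decide +kernel

theorem chk_25 : chk 10 PT wN 25 = true := by decide +kernel

theorem chk_26 : chk 10 PT wN 26 = true := by decide +kernel

theorem chk_27 : chk 10 PT wN 27 = true := by decide +kernel

end Pool.Agent.Lib.Sims.M
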