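import Pool.Agent.Lib.Sims.M.PT

/-!
# The arc checks, part 2
-/

namespace Pool.Agent.Lib.Sims.M

theorem chk_28 : chk 10 PT wN 28 = true := by decide +kernel

theorem chk_29 : chk 10 PT wN 29 = true := by decide +kernel

theorem chk_30 : chk 10 PT wN 30 = true := by decide +kernel

theorem chk_31 : chk 10 PT wN 31 = true := by decide +kernel

theorem chk_32 : chk 10 PT wN 32 = true := by decide +kernel

theorem chk_33 : chk 10 PT wN 33 = true := by decide +kernel

theorem chk_34 : chk 10 PT wN 34 = true := by decide +kernel

theorem chk_35 : chk 10 PT wN 35 = true := by decide +kernel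

theorem chk_36 : chk 10 PT wN 36 = true := by decide +kernel

theorem chk_37 : chk 10 PT wN 37 = true := by decide +kernel

theorem chk_38 : chk 10 PT wN 38 = true := by decide +kernel

theorem chk_39 : chk 10 PT wN 39 = true := by decide +kernel

theorem chk_40 : chk 10 PT wN 40 = true := by decide +kernel

theorem chk_41 : chk 10 PT wN 41 = true := by decide +kernel

end Pool.Agent.Lib.Sims.M
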