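import Pool.Agent.Lib.Sims.M.PT

/-!
# The arc checks, part 3
-/

namespace Pool.Agent.Lib.Sims.M

theorem chk_42 : chk 10 PT wN 42 = true := by decide +kernel

theorem chk_43 : chk 10 PT wN 43 = true := by decide +kernel

theorem chk_44 : chk 10 PT wN 44 = true := by decide +kernel

theorem chk_45 : chk 10 PT wN 45 = true := by decide +kernel

theorem chk_46 : chk 10 PT wN 46 = true := by decide +kernel

theorem chk_47 : chk 10 PT wN 47 = true := by decide +kernel

theorem chk_48 : chk 10 PT wN 48 = true := by decide +kernel

theorem chk_49 : chk 10 PT wN 49 = true := by decide +kernel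

theorem chk_50 : chk 10 PT wN 50 = true := by decide +kernel

theorem chk_51 : chk 10 PT wN 51 = true := by decide +kernel

theorem chk_52 : chk 10 PT wN 52 = true := by decide +kernel

theorem chk_53 : chk 10 PT wN 53 = true := by decide +kernel

theorem chk_54 : chk 10 PT wN 54 = true := by decide +kernel

theorem chk_55 : chk 10 PT wN 55 = true := by decide +kernel

end Pool.Agent.Lib.Sims.M
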