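import Pool.Agent.Lib.Sims.M.HV0
import Pool.Agent.Lib.Sims.M.HV1
import Pool.Agent.Lib.Sims.M.HV2
import Pool.Agent.Lib.Sims.M.HV3

/-!
# The vertex condition
-/

namespace Pool.Agent.Lib.Sims.M

open Pool.Agent.Lib.VK

theorem chk_all (y : ℕ) (h : y < 56) : chk 10 PT wN y = true := by
  interval_cases y
  exacts [chk_0, chk_1, chk_2, chk_3, chk_4, chk_5, chk_6, chk_7, chk_8, chk_9, chk_10, chk_11, chk_12, chk_13, chk_14, chk_15, chk_16, chk_17, chk_18, chk_19, chk_20, chk_21, chk_22, chk_23, chk_24, chk_25, chk_26, chk_27, chk_28, chk_29, chk_30, chk_31, chk_32, chk_33, chk_34, chk_35, chk_36, chk_37, chk_38, chk_39, chk_40, chk_41, chk_42, chk_43, chk_44, chk_45, chk_46, chk_47, chk_48, chk_49, chk_50, chk_51, chk_52, chk_53, chk_54, chk_55]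

theorem st_hv (n : ℕ) (y : ℕ → Fin 56) (κ g : ℕ → HH) (hn : 0 < n)
    (hy : y n = y 0) (ha : ∀ i, CX.Adm FF (CX.nxt (y (i + 1))) (κ i) (y i)) (g0 : g 0 = 1)
    (hg : ∀ i, g (i + 1) = CX.eta (y (i + 1)) * κ i * g i) :
    (g n = 1 → (840 : ℤ) ≤ ∑ i ∈ Finset.range n, WX (CX.nxt (y (i + 1))) (κ i) (y i)) ∧
      -(840 : ℤ) < ∑ i ∈ Finset.range n, WX (CX.nxt (y (i + 1))) (κ i) (y i) :=
  hv_of 10 PT wN piN 840 (by norm_num) chk_all chk0_ok n y κ g hn hy ha g0 hg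

end Pool.Agent.Lib.Sims.M
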