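import Pool.Agent.Lib.Sims.M.Defs

/-!
# The data form a complex of groups
-/

namespace Pool.Agent.Lib.Sims.M

open Pool.Agent.Lib.VK

namespace OK

theorem cd_lt (e : Fin 3 × Bool) : cd e < 6 := by
  rcases e with ⟨⟨e, he⟩, _ | _⟩ <;> simp [cd] <;> omega

def divChk (l : ℕ) : Bool :=
  (el l).all fun a => (el l).all fun b =>
    (el l).any fun c => c.1 == mulN (invN a.1) b.1 && c.2 == mulN (invN a.2) b.2

theorem div_all : ∀ l < 6, divChk l = true := by decide +kernel

theorem bar_all : ∀ e : Fin 3 × Bool, ∀ a ∈ el (cd e), (a.2, a.1) ∈ el (cd (bar e)) := by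
  decide +kernel

theorem one_all : ∀ l < 6, (0, 0) ∈ el l := by decide +kernel

theorem inj_all : ∀ l < 6, ∀ a ∈ el l, a.1 = 0 → a.2 = 0 := by decide +kernel

theorem len_all : ∀ p : Fin 56, 0 < CX.len p ∧ CX.len (CX.nxt p) = CX.len p := by decide +kernel

end OK

theorem prv_nxt : ∀ p : Fin 56, prvN (CX.nxt p).val = p.val := by decide +kernel

theorem st_ok : CX.Ok where
  len_pos p := (OK.len_all p).1
  cost_pos _ := by show 0 < 1000; norm_num
  len_nxt p := (OK.len_all p).2
  cost_nxt _ := rfl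
  tw_one e := OK.one_all _ (OK.cd_lt e)
  tw_div e a a' b b' h1 h2 := by
    have h := OK.div_all _ (OK.cd_lt e)
    simp only [OK.divChk, List.all_eq_true, List.any_eq_true, Bool.and_eq_true, beq_iff_eq] at h
    obtain ⟨c, c1, c2, c3⟩ := h _ h1 _ h2
    show (mulN (invN a.val) b.val, mulN (invN a'.val) b'.val) ∈ el (cd e)
    rw [← c2, ← c3]
    exact c1
  tw_bar e a a' h := OK.bar_all e _ h
  tw_inj e a h := HH.ext (OK.inj_all _ (OK.cd_lt e) _ h rfl)

end Pool.Agent.Lib.Sims.M
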