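import Pool.Agent.Lib.Sims.M.Defs

/-!
# Area certificates by Britton reduction
-/

namespace Pool.Agent.Lib.Sims.M

open Pool.Agent.Lib.VK

namespace Triv

abbrev Tok : Type := (Fin 3 × Bool) ⊕ HH

variable {Γ : Type} [Group Γ] (x : Fin 3 → Γ) (ι : HH →* Γ)

def tk : Tok → Γ
  | Sum.inl e => ex x e
  | Sum.inr h => ι h

def ev : List Tok → Γ
  | [] => 1
  | a :: w => tk x ι a * ev w

def sv : List (HH × (Fin 3 × Bool)) → Γ
  | [] => 1
  | (h, e) :: s => sv s * ι h * ex x e

def look (e : Fin 3 × Bool) (h : HH) : Option HH :=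
  ((el (cd e)).find? fun r => r.2 == h.val && r.1 % 513 == r.1).map fun r => hh r.1

def run : List Tok → List (HH × (Fin 3 × Bool)) → HH → Bool
  | [], s, h => s.isEmpty && h.val == 0
  | Sum.inr y :: w, s, h => run w s (h * y)
  | Sum.inl e :: w, [], h => run w [(h, e)] 1
  | Sum.inl e :: w, (h0, e0) :: s, h =>
    if e = bar e0 then
      match look e0 h with
      | some k => run w s (h0 * k)
      | none => run w ((h, e) :: (h0, e0) :: s) 1
    else run w ((h, e) :: (h0, e0) :: s) 1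

def tU : Fin 56 → ℕ → List Tok
  | _, 0 => []
  | p, n + 1 => Sum.inl (CX.lab p) :: Sum.inr (CX.eta p) :: tU (CX.nxt p) n

def ti : List Tok → List Tok → List Tok
  | [], r => r
  | Sum.inl e :: w, r => ti w (Sum.inl (bar e) :: r)
  | Sum.inr h :: w, r => ti w (Sum.inr h⁻¹ :: r)

theorem look_tw {e : Fin 3 × Bool} {h k : HH} (hl : look e h = some k) : CX.Tw e k h := by
  obtain ⟨r, h1, rfl⟩ := Option.map_eq_some_iff.1 hl
  have h2 := List.find?_some h1
  have h3 := List.mem_of_find?_eq_some h1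
  simp only [Bool.and_eq_true, beq_iff_eq] at h2
  change (r.1 % 513, h.val) ∈ _
  rw [h2.2, ← h2.1]
  exact h3

theorem ev_app (v w : List Tok) : ev x ι (v ++ w) = ev x ι v * ev x ι w := by
  induction v with
  | nil => simp [ev]
  | cons a v ih => rw [List.cons_append, ev, ev, ih, mul_assoc]

theorem ev_tU (p : Fin 56) (n : ℕ) : ev x ι (tU p n) = CX.U x ι p n := by
  induction n generalizing p with
  | zero => rfl
  | succ n ih => rw [tU, ev, ev, ih, Cx.U, mul_assoc]; rfl

theorem ev_ti (w r : List Tok) : ev x ι (ti w r) = (ev x ι w)⁻¹ * ev x ι r := by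
  induction w generalizing r with
  | nil => simp [ti, ev]
  | cons a w ih =>
    rcases a with e | h
    · rw [ti, ih, ev, ev, tk, tk, ex_bar, mul_inv_rev, mul_assoc]
    · rw [ti, ih, ev, ev, tk, tk, map_inv, mul_inv_rev, mul_assoc]

variable {x ι} {A : Γ → ℕ → Prop}

theorem run_ok (hA : CX.AreaS x ι A) (w : List Tok) (s : List (HH × (Fin 3 × Bool))) (h : HH)
    (hr : run w s h = true) : A (sv x ι s * ι h * ev x ι w) w.length := by
  induction w generalizing s h with
  | nil =>
    simp only [run, Bool.and_eq_true, List.isEmpty_iff, beq_iff_eq] at hr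
    rw [hr.1, show h = 1 from HH.ext hr.2]
    simpa [sv, ev] using hA.one
  | cons a w ih =>
    have push : ∀ e, run w ((h, e) :: s) 1 = true →
        A (sv x ι s * ι h * ev x ι (Sum.inl e :: w)) (w.length + 1) := fun e he => by
      have := hA.mono (ih _ _ he) (Nat.le_succ _)
      simpa [sv, ev, tk, mul_assoc] using this
    rcases a with e | y
    · rcases s with _ | ⟨⟨h0, e0⟩, s⟩
      · exact push e hr
      · rw [run] at hr
        split_ifs at hr with he
        · split at hr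
          · rename_i k hk
            have := hA.mul (hA.conj (sv x ι s * ι h0) (hA.big (look_tw hk))) (ih _ _ hr)
            rw [List.length_cons, add_comm]
            convert this using 1
            rw [sv, ev, tk, he, ex_bar, map_mul]
            group
          · exact push e hr
        · exact push e hr
    · have := hA.mono (ih _ _ hr) (Nat.le_succ _)
      simpa [ev, tk, mul_assoc] using this

theorem run_A (hA : CX.AreaS x ι A) {w : List Tok} (hr : run w [] 1 = true) :
    A (ev x ι w) w.length := by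
  simpa [sv] using run_ok hA w [] 1 hr

/-- `w` followed by the inverse of the cell `r` conjugated by `g` -/
def cw (w g : List Tok) (r : Fin 56) : List Tok := w ++ (g ++ ti (tU r (CX.len r)) (ti g []))

theorem cyc : ∀ r : Fin 56, CX.nxt^[CX.len r] r = r := by decide +kernel

theorem cw_A (hA : CX.AreaS x ι A) {w g : List Tok} {r : Fin 56}
    (hr : run (cw w g r) [] 1 = true) : A (ev x ι w) ((cw w g r).length + 1000) := by
  have := hA.mul (run_A hA hr) (hA.conj (ev x ι g) (hA.cell r (cyc r)))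
  convert this using 1
  · rw [cw, ev_app, ev_app, ev_ti, ev_ti, ev_tU, ev]
    group
  · rfl

def fin (n : ℕ) : Fin 56 := ⟨n % 56, Nat.mod_lt _ (by norm_num)⟩

def ga (p : Fin 56) (k : HH) : List Tok := [Sum.inr k, Sum.inl (CX.lab p)]

def tE (p : Fin 56) (k : HH) (q : Fin 56) : List Tok :=
  tU p (CX.len p) ++ (ga p k ++ (tU q (CX.len q) ++ ti (ga p k) []))

def cand (p : ℕ) : List (ℕ × ℕ) := [[(2, 28), (4, 26)], [(1, 28), (3, 26)], [(4, 24), (2, 26)],
  [(3, 24), (1, 26)], [(4, 22), (2, 24)], [(3, 22), (1, 24)], [(2, 22), (4, 28)],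
  [(1, 22), (3, 28)], [(2, 20), (4, 18)], [(1, 20), (3, 18)], [(4, 16), (2, 18)],
  [(3, 16), (1, 18)], [(4, 14), (2, 16)], [(3, 14), (1, 16)], [(2, 14), (4, 20)],
  [(1, 14), (3, 20)]].getD (p - 14) []

theorem inv_aux : ∀ p : Fin 56, ((fbL p.val).any fun c =>
    run (cw (ti (tU p (CX.len p)) []) (ga p (hh c.1)) (fin c.2)) [] 1) = true := by
  decide +kernel

theorem f1_aux : ∀ p : Fin 56, ((fbL p.val).all fun c =>
    (run (tE p (hh c.1) (fin c.2)) [] 1 && decide ((tE p (hh c.1) (fin c.2)).length < 900)) ||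
    (cand p.val).any fun d => run (cw (tE p (hh c.1) (fin c.2)) (tU p d.1) (fin d.2)) [] 1 &&
      decide ((cw (tE p (hh c.1) (fin c.2)) (tU p d.1) (fin d.2)).length < 900)) = true := by
  decide +kernel

theorem len_le : ∀ p : Fin 56, CX.len p ≤ 8 := by decide +kernel

end Triv

open Triv

theorem st_hinv : ∀ (Γ : Type) [Group Γ] (x : Fin 3 → Γ) (ι : HH →* Γ) (A : Γ → ℕ → Prop),
    CX.AreaS x ι A → ∀ p, CX.nxt^[CX.len p] p = p → ∃ m, A (CX.U x ι p (CX.len p))⁻¹ m := by
  intro Γ _ x ι A hA p _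
  obtain ⟨c, -, hc⟩ := List.any_eq_true.1 (inv_aux p)
  have := cw_A hA hc
  rw [ev_ti, ev_tU, ev, mul_one] at this
  exact ⟨_, this⟩

theorem st_hF1 : ∀ (Γ : Type) [Group Γ] (x : Fin 3 → Γ) (ι : HH →* Γ) (A : Γ → ℕ → Prop),
    CX.AreaS x ι A → ∀ p κ q, FF p κ q → CX.nxt^[CX.len p] p = p → CX.nxt^[CX.len q] q = q →
      ∃ m, A (CX.U x ι p (CX.len p) * (ι κ * ex x (CX.lab p) * CX.U x ι q (CX.len q) *
        (ι κ * ex x (CX.lab p))⁻¹)) m ∧ m + CX.len p + CX.len q + 2 < CX.cost p + CX.cost q := by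
  intro Γ _ x ι A hA p κ q hF _ _
  have h := List.all_eq_true.1 (f1_aux p) _ hF
  have e1 : hh κ.val = κ := HH.ext (Nat.mod_eq_of_lt κ.lt)
  have e2 : fin q.val = q := Fin.ext (Nat.mod_eq_of_lt q.isLt)
  have e3 : ev x ι (tE p κ q) = CX.U x ι p (CX.len p) * (ι κ * ex x (CX.lab p) *
      CX.U x ι q (CX.len q) * (ι κ * ex x (CX.lab p))⁻¹) := by
    rw [tE, ev_app, ev_app, ev_app, ev_ti, ev_tU, ev_tU]
    simp [ga, ev, tk, mul_assoc]
  have l1 := len_le p
  have l2 := len_le q
  have c1 : CX.cost p + CX.cost q = 2000 := rfl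
  simp only [e1, e2, Bool.or_eq_true, Bool.and_eq_true, decide_eq_true_eq, List.any_eq_true] at h
  rw [← e3, c1]
  rcases h with h | ⟨d, -, h⟩
  · exact ⟨_, run_A hA h.1, by omega⟩
  · exact ⟨_, cw_A hA h.1, by omega⟩

end Pool.Agent.Lib.Sims.M
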