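import Pool.Agent.Lib.Sims.Bridge2
import Pool.Agent.Lib.Sims.M.Defs

/-!
# From the complex of groups to the basic commutators of weight eight
-/

namespace Pool.Agent.Lib.Sims.M

open Pool.Agent.Lib.MP_841f14_al Pool.Agent.Lib.VK

namespace Br

section Glue

variable {G : Type*} [Group G]

theorem hom_cm {G' : Type*} [Group G'] (φ : G →* G') (x y : G) : φ (cm x y) = cm (φ x) (φ y) := by
  simp only [cm, map_mul, map_inv]

/-- `a0 = 57`, `a1 = 171`, `a2 = 115`, `u = 399`, `q = 398`; the witness is `[q,u,u,u]` -/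
theorem glue (ι : HH →* G) (b ν τ : G)
    (hb0 : ι (hh 57) * b = b * ι (hh 171)) (hb1 : ι (hh 171) * b = b * ι (hh 115))
    (hν : ι (hh 399) * ν = ν * ι (hh 399)) (hτ : ι (hh 398) * τ = τ * ι (hh 398))
    (hDt : τ⁻¹ * b⁻¹ * ι (hh 172) * b * ι (hh 398) * b⁻¹ * ι (hh 172) * b⁻¹ * ι (hh 398) * b *
      b = 1)
    (hR2 : b⁻¹ * ι (hh 172) * b * ι (hh 333) * b⁻¹ * ι (hh 398) * b * ι (hh 399) * b⁻¹ *
      ι (hh 172) * b * ι (hh 405) * b⁻¹ * ι (hh 398) * b * ι (hh 285) = 1)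
    (hDn : ν⁻¹ * τ⁻¹ * b⁻¹ * τ * b = 1)
    (hR4 : ν⁻¹ * b * ν * b⁻¹ * ν⁻¹ * b⁻¹ * ν * b = 1)
    (hz : ι (cm (cm (cm (hh 398) (hh 399)) (hh 399)) (hh 399)) ≠ 1)
    {X : Type*} [Nontrivial X] (lt : FreeMagma X → FreeMagma X → Prop) (hlt : IsHallOrder lt) :
    NB lt 8 < (⊤ : Subgroup (FreeGroup X)).lowerCentralSeries (8 - 1) := by
  have e1 : b⁻¹ * ι (hh 57) * b = ι (hh 171) := by rw [mul_assoc, hb0, inv_mul_cancel_left]
  have e2 : b⁻¹ * ι (hh 171) * b = ι (hh 115) := by rw [mul_assoc, hb1, inv_mul_cancel_left]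
  have hu0 : ι (hh 399) = (ι (hh 171))⁻¹ * ι (hh 57) := by
    rw [← map_inv, ← map_mul]; exact congrArg ι (by decide)
  have hu : cm b (ι (hh 57)) = ι (hh 399) := by rw [hu0, ← e1, cm]; group
  have hq : cm (ι (hh 399)) b = ι (hh 398) := by
    have h1 : ι (hh 398) = (ι (hh 399))⁻¹ * ((ι (hh 115))⁻¹ * ι (hh 171)) := by
      rw [← map_inv, ← map_inv, ← map_mul, ← map_mul]; exact congrArg ι (by decide)
    have h2 : b⁻¹ * ι (hh 399) * b = (ι (hh 115))⁻¹ * ι (hh 171) := by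
      rw [hu0, ← e2]
      conv_rhs => enter [2]; rw [← e1]
      group
    rw [h1, ← h2, cm]; group
  have i1 : ι (hh 172) = (ι (hh 398))⁻¹ := by rw [← map_inv]; exact congrArg ι (by decide)
  have i2 : ι (hh 285) = (ι (hh 399))⁻¹ := by rw [← map_inv]; exact congrArg ι (by decide)
  have i3 : ι (hh 333) = ι (hh 398) * (ι (hh 399))⁻¹ * (ι (hh 398))⁻¹ := by
    rw [← map_inv, ← map_inv, ← map_mul, ← map_mul]; exact congrArg ι (by decide)
  have i4 : ι (hh 405) = ι (hh 398) * ι (hh 399) * (ι (hh 398))⁻¹ := by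
    rw [← map_inv, ← map_mul, ← map_mul]; exact congrArg ι (by decide)
  have ht : cm (cm (ι (hh 398)) b) b = τ := by
    rw [i1] at hDt
    rw [← inv_mul_eq_one.1 (show τ⁻¹ * cm (cm (ι (hh 398)) b) b = 1 by
      rw [← hDt, cm, cm]; group)]
  have hv : cm τ b = ν := by
    rw [← inv_mul_eq_one.1 (show ν⁻¹ * cm τ b = 1 by rw [← hDn, cm]; group)]
  have eU : ev (two (ι (hh 57)) b) tU = ι (hh 399) := hu
  have eQ : ev (two (ι (hh 57)) b) tQ = ι (hh 398) := by rw [tQ, ev_mul', eU]; exact hq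
  have eS : ev (two (ι (hh 57)) b) tS = cm (ι (hh 398)) b := by rw [tS, ev_mul', eQ]; rfl
  have eT : ev (two (ι (hh 57)) b) tT = τ := by rw [tT, ev_mul', eS]; exact ht
  have eV : ev (two (ι (hh 57)) b) tV = ν := by rw [tV, ev_mul', eT]; exact hv
  have eW : ev (two (ι (hh 57)) b) tW = cm ν b := by rw [tW, ev_mul', eV]; rfl
  refine bridge_tree (ι (hh 57)) b ?_ ?_ ?_ ?_ ?_ ?_ (tQ * tU * tU * tU) (by decide) ?_ lt hlt
  · rw [hu, ← hom_cm]; exact (congrArg ι (by decide)).trans ι.map_one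
  · rw [ev_mul', eT, eQ, cm_eq_one, hτ]
  · rw [ev_mul', ev_mul', eS, eU]
    refine baa_of_comm ?_
    rw [i1, i2, i3, i4] at hR2
    calc _ = (ι (hh 399))⁻¹ * 1 * ι (hh 399) := by rw [← hR2, cm, cm]; group
      _ = 1 := by group
  · rw [ev_mul', eV, eU, cm_eq_one, hν]
  · rw [ev_mul', eW]
    calc _ = b⁻¹ * 1 * b := by
          rw [← hR4]
          show cm (cm ν b) b = _
          rw [cm, cm]; group
      _ = 1 := by group
  · rw [ev_mul', ev_mul', eQ, eU, ← hom_cm, ← hom_cm]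
    exact (congrArg ι (by decide)).trans ι.map_one
  · rw [ev_mul', ev_mul', ev_mul', eQ, eU, ← hom_cm, ← hom_cm, ← hom_cm]; exact hz

end Glue

variable {G : Type} [Group G]

/-- the value of a coded word -/
def wv (x : Fin 3 → G) (ι : HH →* G) : List (ℕ × ℕ) → G
  | [] => 1
  | a :: t => ex x (dc a.1) * ι (hh a.2) * wv x ι t

/-- the second word arises from the first one by sliding `k` through it -/
def rel : HH → List (ℕ × ℕ) → List (ℕ × ℕ) → Bool
  | k, [], [] => k.val == 0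
  | k, a :: t, a' :: t' => a.1 == a'.1 && (el (cd (dc a.1))).any fun p =>
      p.1 == k.val && decide (p.2 < 513) && rel ((hh a'.2)⁻¹ * hh p.2 * hh a.2) t t'
  | _, _, _ => false

theorem rel_ok {x : Fin 3 → G} {ι : HH →* G}
    (hx : ∀ e k k', CX.Tw e k k' → ι k * ex x e = ex x e * ι k') :
    ∀ (L L' : List (ℕ × ℕ)) (k : HH), rel k L L' = true → ι k * wv x ι L = wv x ι L'
  | [], [], k, h => by
    have : k = 1 := HH.ext (show k.val = 0 by simpa [rel] using h)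
    rw [this, map_one, one_mul]
  | [], _ :: _, _, h => by simp [rel] at h
  | _ :: _, [], _, h => by simp [rel] at h
  | a :: t, a' :: t', k, h => by
    simp only [rel, Bool.and_eq_true, beq_iff_eq, List.any_eq_true, decide_eq_true_eq] at h
    obtain ⟨h1, p, hp, ⟨h2, h3⟩, h4⟩ := h
    have h5 : CX.Tw (dc a.1) k (hh p.2) := by
      show (k.val, p.2 % 513) ∈ el (cd (dc a.1))
      rw [Nat.mod_eq_of_lt h3, ← h2]
      exact hp
    rw [wv, wv, ← rel_ok hx t t' _ h4, ← h1, ← mul_assoc, ← mul_assoc, hx _ _ _ h5, map_mul,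
      map_mul, map_inv]
    group

theorem wv_of {x : Fin 3 → G} {ι : HH →* G}
    (hx : ∀ e k k', CX.Tw e k k' → ι k * ex x e = ex x e * ι k') {L L' : List (ℕ × ℕ)}
    (h : rel 1 L L' = true) (h1 : wv x ι L = 1) : wv x ι L' = 1 := by
  rw [← rel_ok hx L L' 1 h, h1, map_one, one_mul]

end Br

open Br in
/-- the conclusion of the relative weight test refutes the conjecture in weight eight -/
theorem br (h : ∃ (H : Type) (_ : Group H) (x : Fin 3 → H) (ι : HH →* H),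
      (∀ e k k', CX.Tw e k k' → ι k * ex x e = ex x e * ι k') ∧
      (∀ p, CX.nxt^[CX.len p] p = p → CX.U x ι p (CX.len p) = 1) ∧ Function.Injective ι)
    {X : Type*} [Nontrivial X] (lt : FreeMagma X → FreeMagma X → Prop) (hlt : IsHallOrder lt) :
    NB lt 8 < (⊤ : Subgroup (FreeGroup X)).lowerCentralSeries (8 - 1) := by
  obtain ⟨H, _, x, ι, hx, hc, hi⟩ := h
  have h0 : ι (hh 0) = 1 := ι.map_one
  have l0 : ex x (dc 0) = x 0 := rfl
  have l1 : ex x (dc 1) = (x 0)⁻¹ := rfl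
  have l2 : ex x (dc 2) = x 1 := rfl
  have l3 : ex x (dc 3) = (x 1)⁻¹ := rfl
  have l4 : ex x (dc 4) = x 2 := rfl
  have l5 : ex x (dc 5) = (x 2)⁻¹ := rfl
  have c1 : wv x ι [(5, 0), (1, 115), (0, 8), (1, 108), (1, 122), (0, 0), (0, 0)] = 1 :=
    hc 0 (by decide)
  have c2 : wv x ι [(1, 115), (0, 23), (1, 65), (0, 1), (1, 1), (0, 125), (1, 8), (0, 58)] = 1 :=
    hc 14 (by decide)
  have c3 : wv x ι [(3, 0), (5, 0), (1, 0), (4, 0), (0, 0)] = 1 := hc 30 (by decide)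
  have c4 : wv x ι [(3, 0), (0, 0), (2, 0), (1, 0), (3, 0), (1, 0), (2, 0), (0, 0)] = 1 :=
    hc 40 (by decide)
  have d1 := wv_of hx (L' := [(5, 0), (1, 172), (0, 398), (1, 172), (1, 398), (0, 0), (0, 0)])
    (by decide) c1
  have hk := wv_of hx (L' := [(1, 172), (0, 333), (1, 398), (0, 399), (1, 172), (0, 405),
    (1, 398), (0, 285)]) (by decide) c2
  have tw : ∀ l a b : ℕ, ((hh a).val, (hh b).val) ∈ el (cd (dc l)) →
      ι (hh a) * ex x (dc l) = ex x (dc l) * ι (hh b) := fun l a b h => hx _ _ _ h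
  simp only [wv, l0, l1, l2, l3, l4, l5, h0, mul_one, ← mul_assoc] at d1 hk c3 c4
  exact glue ι (x 0) (x 1) (x 2) (tw 0 57 171 (by decide)) (tw 0 171 115 (by decide))
    (tw 2 399 399 (by decide)) (tw 4 398 398 (by decide)) d1 hk c3 c4
    (fun h => absurd (hi (h.trans ι.map_one.symm)) (by decide)) lt hlt

end Pool.Agent.Lib.Sims.M
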