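import Pool.Agent.Lib.Sims.M.B_HV
import Pool.Agent.Lib.Sims.M.B_HE
import Pool.Agent.Lib.Sims.M.B_HEIS
import Pool.Agent.Lib.Sims.M.B_TRIV
import Pool.Agent.Lib.Sims.M.Br

/-!
# The vertex group embeds
-/

namespace Pool.Agent.Lib.Sims.M

open Pool.Agent.Lib.VK

theorem ok_div : ∀ e : Fin 3 × Bool, ∀ a ∈ el (cd e), ∀ b ∈ el (cd e),
    (mulN (invN a.1) b.1, mulN (invN a.2) b.2) ∈ el (cd e) := by decide +kernel

theorem ok_bar : ∀ e : Fin 3 × Bool, ∀ a ∈ el (cd e), (a.2, a.1) ∈ el (cd (bar e)) := by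
  decide +kernel

theorem ok_inj : ∀ e : Fin 3 × Bool, ∀ a ∈ el (cd e), a.1 = 0 → a.2 = 0 := by decide +kernel

theorem ok_one : ∀ e : Fin 3 × Bool, (0, 0) ∈ el (cd e) := by decide +kernel

theorem cx_ok : CX.Ok where
  len_pos := by decide +kernel
  cost_pos _ := by norm_num [CX]
  len_nxt := by decide +kernel
  cost_nxt _ := rfl
  tw_one := ok_one
  tw_div e _ _ _ _ h1 h2 := ok_div e _ h1 _ h2
  tw_bar e _ _ h := ok_bar e _ h
  tw_inj e _ h := HH.ext (ok_inj e _ h rfl)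

theorem final : ∃ (H : Type) (_ : Group H) (x : Fin 3 → H) (ι : HH →* H),
    (∀ e k k', CX.Tw e k k' → ι k * ex x e = ex x e * ι k') ∧
    (∀ p, CX.nxt^[CX.len p] p = p → CX.U x ι p (CX.len p) = 1) ∧ Function.Injective ι :=
  rel_test cx_ok st_hinv fx fv st_hx st_hc FF st_hF1 st_hF2 WX uX 840 (by norm_num) st_hu
    st_he st_hv

end Pool.Agent.Lib.Sims.M
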