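import Pool.Agent.Lib.Sims.M.PT

/-!
# The arc checks, part 0
-/

namespace Pool.Agent.Lib.Sims.M

theorem chk_0 : chk 10 PT wN 0 = true := by decide +kernel

theorem chk_1 : chk 10 PT wN 1 = true := by decide +kernel

theorem chk_2 : chk 10 PT wN 2 = true := by decide +kernel

theorem chk_3 : chk 10 PT wN 3 = true := by decide +kernel

theorem chk_4 : chk 10 PT wN 4 = true := by decide +kernel

theorem chk_5 : chk 10 PT wN 5 = true := by decide +kernel

theorem chk_6 : chk 10 PT wN 6 = true := by decide +kernel

theorem chk_7 : chk 10 PT wN 7 = true := by decide +kernel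

theorem chk_8 : chk 10 PT wN 8 = true := by decide +kernel

theorem chk_9 : chk 10 PT wN 9 = true := by decide +kernel

theorem chk_10 : chk 10 PT wN 10 = true := by decide +kernel

theorem chk_11 : chk 10 PT wN 11 = true := by decide +kernel

theorem chk_12 : chk 10 PT wN 12 = true := by decide +kernel

theorem chk_13 : chk 10 PT wN 13 = true := by decide +kernel

end Pool.Agent.Lib.Sims.M
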