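import Pool.Agent.Lib.Sims.M.WData
import Pool.Agent.Lib.Sims.M.PT0
import Pool.Agent.Lib.Sims.M.PT1
import Pool.Agent.Lib.Sims.M.PT2
import Pool.Agent.Lib.Sims.M.PT3
import Pool.Agent.Lib.Sims.M.PT4
import Pool.Agent.Lib.Sims.M.PT5
import Pool.Agent.Lib.Sims.M.PT6

/-!
# The table of potentials
-/

namespace Pool.Agent.Lib.Sims.M

noncomputable def PT (y b : ℕ) : ℕ := ([T0, T1, T2, T3, T4, T5, T6, T7, T8, T9, T10, T11, T12, T13, T14, T15, T16, T17, T18, T19, T20, T21, T22, T23, T24, T25, T26, T27, T28, T29, T30, T31, T32, T33, T34, T35, T36, T37, T38, T39, T40, T41, T42, T43, T44, T45, T46, T47, T48, T49, T50, T51, T52, T53, T54, T55].getD y []).getD b 0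

theorem chk0_ok : chk0 10 PT 840 = true := by decide +kernel

end Pool.Agent.Lib.Sims.M
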