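import Pool.Agent.Lib.Sims.M.Defs

/-!
# Packed vectors and the vertex condition from potentials
-/

namespace Pool.Agent.Lib.Sims.M

open Pool.Agent.Lib.VK

/-- field number `i` of width `k` -/
def dig (k A i : ℕ) : ℕ := (A >>> (k * i)) % 2 ^ k

/-- `n` fields equal to `1` -/
def ones (k n : ℕ) : ℕ := (2 ^ (k * n) - 1) / (2 ^ k - 1)

theorem dig_zero (k A : ℕ) : dig k A 0 = A % 2 ^ k := by simp [dig]

theorem dig_succ (k A i : ℕ) : dig k A (i + 1) = dig k (A / 2 ^ k) i := by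
  rw [dig, dig, mul_add, mul_one, add_comm, Nat.shiftRight_add, Nat.shiftRight_eq_div_pow A k]

theorem dig_shift (k A m i : ℕ) : dig k (A >>> (k * m)) i = dig k A (m + i) := by
  rw [dig, dig, mul_add, Nat.shiftRight_add]

theorem dig_and (k A B i : ℕ) : dig k (A &&& B) i = dig k A i &&& dig k B i := by
  rw [dig, dig, dig, Nat.shiftRight_and_distrib, Nat.and_mod_two_pow]

theorem ones_succ {k : ℕ} (hk : 0 < k) (n : ℕ) : ones k (n + 1) = 1 + 2 ^ k * ones k n := by
  have h : 2 ≤ 2 ^ k := Nat.le_self_pow hk.ne' 2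
  simp only [ones, pow_mul, ← Nat.geomSum_eq h]
  rw [Finset.sum_range_succ', Finset.mul_sum, add_comm]
  simp only [pow_succ', pow_zero]

theorem dig_sub {k μ c : ℕ} (hk : 0 < k) (h1 : μ ≤ c) (h2 : c + μ < 2 ^ k) (n : ℕ) :
    ∀ A B : ℕ, A < 2 ^ (k * n) → (∀ i < n, dig k A i ≤ μ) → (∀ i < n, dig k B i ≤ μ) →
      A ≤ B + c * ones k n ∧
      ∀ i < n, dig k (B + c * ones k n - A) i = dig k B i + c - dig k A i := by
  induction n with
  | zero => intro A B h _ _; exact ⟨by simp at h; omega, by simp⟩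
  | succ n ih =>
    intro A B h hA hB
    have hp : 0 < 2 ^ k := by positivity
    obtain ⟨i1, i2⟩ := ih (A / 2 ^ k) (B / 2 ^ k)
      (by rw [Nat.div_lt_iff_lt_mul hp, ← pow_add]; exact h)
      (fun i hi => by rw [← dig_succ]; exact hA _ (by omega))
      (fun i hi => by rw [← dig_succ]; exact hB _ (by omega))
    have a0 := hA 0 (by omega)
    have b0 := hB 0 (by omega)
    rw [dig_zero] at a0 b0
    obtain ⟨E, hE⟩ := Nat.exists_eq_add_of_le i1
    have eA := Nat.mod_add_div A (2 ^ k)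
    have eB := Nat.mod_add_div B (2 ^ k)
    have e : B + c * ones k (n + 1) = A + ((B % 2 ^ k + c - A % 2 ^ k) + 2 ^ k * E) := by
      have := congrArg (2 ^ k * ·) hE
      simp only [mul_add] at this
      rw [ones_succ hk, mul_add, mul_left_comm c]
      omega
    refine ⟨by omega, fun i hi => ?_⟩
    rw [e, Nat.add_sub_cancel_left]
    rcases i with _ | i
    · rw [dig_zero, dig_zero, dig_zero, Nat.add_mul_mod_self_left, Nat.mod_eq_of_lt (by omega)]
    · rw [dig_succ, dig_succ, dig_succ, ← i2 i (by omega), Nat.add_mul_div_left _ _ hp,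
        Nat.div_eq_of_lt (by omega), zero_add, hE, Nat.add_sub_cancel_left]

theorem dig_ones {k c : ℕ} (hk : 0 < k) (h : c < 2 ^ k) {n i : ℕ} (hi : i < n) :
    dig k (c * ones k n) i = c := by
  simpa [dig] using (dig_sub (μ := 0) hk (Nat.zero_le c) h n 0 0 (by positivity) (by simp [dig])
    (by simp [dig])).2 i hi

theorem ones_lt {k c : ℕ} (h : c < 2 ^ k) (n : ℕ) : c * ones k n < 2 ^ (k * n) := by
  have h1 : ones k n * (2 ^ k - 1) ≤ 2 ^ (k * n) - 1 := Nat.div_mul_le_self _ _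
  have h2 : c * ones k n ≤ (2 ^ k - 1) * ones k n := Nat.mul_le_mul_right _ (by omega)
  have h3 : 0 < 2 ^ (k * n) := by positivity
  rw [mul_comm] at h1
  omega

theorem dig_dbl {k n A : ℕ} (hA : A < 2 ^ (k * n)) {j : ℕ} (hj : j < 2 * n) :
    dig k (A + A <<< (k * n)) j = dig k A (j % n) := by
  rw [Nat.shiftLeft_eq, mul_comm A]
  by_cases h : j < n
  · obtain ⟨m, rfl⟩ := Nat.exists_eq_add_of_lt h
    rw [Nat.mod_eq_of_lt h, dig, dig, Nat.shiftRight_eq_div_pow, Nat.shiftRight_eq_div_pow,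
      show 2 ^ (k * (j + m + 1)) * A = 2 ^ (k * j) * (2 ^ k * (2 ^ (k * m) * A)) by ring,
      Nat.add_mul_div_left _ _ (by positivity), Nat.add_mul_mod_self_left]
  · obtain ⟨m, rfl⟩ := Nat.exists_eq_add_of_le (not_lt.1 h)
    rw [← dig_shift, Nat.shiftRight_eq_div_pow, Nat.add_mul_div_left _ _ (by positivity),
      Nat.div_eq_of_lt hA, zero_add, Nat.add_mod_left, Nat.mod_eq_of_lt (by omega)]

theorem cmp_sound {K n w S B : ℕ} (hw : w ≤ 2 ^ K - 1) (hB : ∀ i < n, dig (K + 2) B i ≤ 2 ^ K - 1)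
    (h : (B + (w + 2 ^ (K + 1)) * ones (K + 2) n - (S &&& (2 ^ K - 1) * ones (K + 2) n)) &&&
      2 ^ (K + 1) * ones (K + 2) n = 2 ^ (K + 1) * ones (K + 2) n) {i : ℕ} (hi : i < n) :
    dig (K + 2) S i &&& (2 ^ K - 1) ≤ dig (K + 2) B i + w := by
  have hp : 0 < 2 ^ K := by positivity
  have e1 : 2 ^ (K + 1) = 2 * 2 ^ K := by ring
  have e2 : 2 ^ (K + 2) = 4 * 2 ^ K := by ring
  have hA : ∀ i < n, dig (K + 2) (S &&& (2 ^ K - 1) * ones (K + 2) n) i =
      dig (K + 2) S i &&& (2 ^ K - 1) := fun i hi => by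
    rw [dig_and, dig_ones (by omega) (by omega) hi]
  have h1 := (dig_sub (k := K + 2) (μ := 2 ^ K - 1) (c := w + 2 ^ (K + 1)) (by omega) (by omega)
    (by omega) n (S &&& (2 ^ K - 1) * ones (K + 2) n) B
    (Nat.and_le_right.trans_lt (ones_lt (c := 2 ^ K - 1) (k := K + 2) (by omega) n))
    (fun i hi => by rw [hA i hi]; exact Nat.and_le_right) hB).2 i hi
  have h2 := congrArg (dig (K + 2) · i) h
  simp only [dig_and] at h2
  rw [dig_ones (c := 2 ^ (K + 1)) (k := K + 2) (by omega) (by omega) hi, h1, hA i hi] at h2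
  have h3 := h2.symm.trans_le Nat.and_le_left
  have h4 : dig (K + 2) S i &&& (2 ^ K - 1) ≤ 2 ^ K - 1 := Nat.and_le_right
  omega

theorem mulN_blk {a : ℕ} (d : ℕ) : mulN a d / 57 = mulN (57 * (a / 57)) d / 57 ∧
    mulN a d % 57 = (a % 57 + mulN (57 * (a / 57)) d % 57) % 57 := by
  unfold mulN
  rw [show 57 * (a / 57) / 57 = a / 57 by omega, show 57 * (a / 57) / 171 = a / 171 by omega]
  generalize 7 ^ (a / 57 % 3) * (d % 57) = z
  omega

variable (K : ℕ) (PT : ℕ → ℕ → ℕ) (wN : ℕ → ℕ → ℕ → ℕ)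

/-- masked potentials -/
def PM (y b : ℕ) : ℕ := PT y b &&& (2 ^ K - 1) * ones (K + 2) 3192

/-- potentials with the source set to zero -/
def QM (y b : ℕ) : ℕ :=
  if b = 0 then PM K PT y 0 &&& (2 ^ ((K + 2) * 3192) - 1 - (2 ^ K - 1) <<< ((K + 2) * y))
  else PM K PT y b

def P2 (y b : ℕ) : ℕ := PM K PT y b + PM K PT y b <<< ((K + 2) * 3192)

/-- one arc -/
def arc (y' y d C : ℕ) : Bool :=
  (List.range 9).all fun b =>
    (QM K PT y b + C - (P2 K PT y' (mulN (57 * b) d / 57) >>>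
      ((K + 2) * (56 * (mulN (57 * b) d % 57))) &&& (2 ^ K - 1) * ones (K + 2) 3192)) &&&
      2 ^ (K + 1) * ones (K + 2) 3192 == 2 ^ (K + 1) * ones (K + 2) 3192

/-- all arcs into `y'` -/
def chk (y' : ℕ) : Bool :=
  (List.range 56).all fun y => !decide (dc (labN y) = bar (dc (labN (nxtN y' % 56)))) ||
    (el (cd (dc (labN (nxtN y' % 56))))).all fun k => decide ((k.1, y) ∈ fbL (nxtN y' % 56)) ||
      arc K PT y' y (mulN (invN k.1) (invN (etaN y' % 513)))
        ((min (wN (nxtN y' % 56) k.1 y) (2 ^ K - 1) + 2 ^ (K + 1)) * ones (K + 2) 3192)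

/-- source and sink -/
def chk0 (N : ℕ) : Bool :=
  (List.range 56).all fun r => dig (K + 2) (QM K PT r 0) r == 0 &&
    decide (N ≤ dig (K + 2) (PM K PT r 0) r) && prvN (nxtN r % 56) == r

/-- the weights -/
def WW (piN : ℕ → ℕ) (p : Fin 56) (κ : HH) (q : Fin 56) : ℤ :=
  (wN p.val κ.val q.val : ℤ) - piN q.val + piN (prvN p.val)

theorem hv_of (piN : ℕ → ℕ) (N : ℕ) (hN : 0 < N) (h1 : ∀ y < 56, chk K PT wN y = true)
    (h2 : chk0 K PT N = true) (n : ℕ) (y : ℕ → Fin 56) (κ g : ℕ → HH) (hn : 0 < n)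
    (hy : y n = y 0) (ha : ∀ i, CX.Adm FF (CX.nxt (y (i + 1))) (κ i) (y i)) (g0 : g 0 = 1)
    (hg : ∀ i, g (i + 1) = CX.eta (y (i + 1)) * κ i * g i) :
    (g n = 1 → (N : ℤ) ≤ ∑ i ∈ Finset.range n, WW wN piN (CX.nxt (y (i + 1))) (κ i) (y i)) ∧
      -(N : ℤ) < ∑ i ∈ Finset.range n, WW wN piN (CX.nxt (y (i + 1))) (κ i) (y i) := by
  have hp : 0 < 2 ^ K := by positivity
  have e2 : 2 ^ (K + 2) = 4 * 2 ^ K := by ring
  simp only [chk0, List.all_eq_true, List.mem_range, Bool.and_eq_true, beq_iff_eq,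
    decide_eq_true_eq] at h2
  let w : ℕ → ℕ := fun i => wN (CX.nxt (y (i + 1))).val (κ i).val (y i).val
  have tel : ∀ m, ∑ i ∈ Finset.range m, WW wN piN (CX.nxt (y (i + 1))) (κ i) (y i) =
      (∑ i ∈ Finset.range m, w i : ℕ) + (piN (y m).val : ℤ) - piN (y 0).val := fun m => by
    induction m with
    | zero => simp
    | succ m ih =>
      have : prvN (CX.nxt (y (m + 1))).val = (y (m + 1)).val := (h2 _ (y (m + 1)).isLt).2
      rw [Finset.sum_range_succ, Finset.sum_range_succ, ih, WW, this]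
      push_cast
      ring
  rw [tel, hy]
  refine ⟨fun gn => ?_, by omega⟩
  have pm : ∀ y b i, i < 3192 → dig (K + 2) (PM K PT y b) i &&& (2 ^ K - 1) =
      dig (K + 2) (PM K PT y b) i := fun y b i hi => by
    rw [PM, dig_and, dig_ones (by omega) (by omega) hi, Nat.and_assoc, Nat.and_self]
  have qm : ∀ y b i, dig (K + 2) (QM K PT y b) i ≤ dig (K + 2) (PM K PT y b) i := fun y b i => by
    unfold QM
    split_ifs with h
    · rw [dig_and, h]
      exact Nat.and_le_left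
    · exact le_rfl
  have lt2 : ∀ y b, PM K PT y b < 2 ^ ((K + 2) * 3192) := fun y b =>
    Nat.and_le_right.trans_lt (ones_lt (by omega) _)
  have r := (y 0).isLt
  have step : ∀ i, dig (K + 2) (PM K PT (y (i + 1)).val ((g (i + 1))⁻¹.val / 57))
      (56 * ((g (i + 1))⁻¹.val % 57) + (y 0).val) ≤
      dig (K + 2) (QM K PT (y i).val ((g i)⁻¹.val / 57))
        (56 * ((g i)⁻¹.val % 57) + (y 0).val) + w i := fun i => by
    obtain ⟨⟨κ', a1⟩, a2, a3⟩ := ha i
    have c := h1 _ (y (i + 1)).isLt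
    simp only [chk, arc, List.all_eq_true, List.mem_range, Bool.or_eq_true, Bool.not_eq_true',
      decide_eq_false_iff_not, decide_eq_true_eq, beq_iff_eq] at c
    have lt := (g i)⁻¹.lt
    have c2 := ((c _ (y i).isLt).resolve_left (not_not.2 a2) _ a1).resolve_left a3
      ((g i)⁻¹.val / 57) (by omega)
    have c3 := cmp_sound (min_le_right _ _) (fun j hj => (qm _ _ j).trans
      ((pm _ _ j hj).symm.trans_le Nat.and_le_right)) c2
      (i := 56 * ((g i)⁻¹.val % 57) + (y 0).val) (by omega)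
    have e : (g (i + 1))⁻¹.val =
        mulN (g i)⁻¹.val (mulN (invN (κ i).val) (invN (etaN (y (i + 1)).val % 513))) := by
      rw [hg, mul_inv_rev, mul_inv_rev]
      rfl
    obtain ⟨b1, b2⟩ := mulN_blk (a := (g i)⁻¹.val)
      (mulN (invN (κ i).val) (invN (etaN (y (i + 1)).val % 513)))
    dsimp only at c3
    rw [dig_shift, P2, dig_dbl (lt2 _ _) (by omega), pm _ _ _ (by omega), ← b1, ← e] at c3
    rw [← e] at b2
    rw [b2]
    refine le_trans (le_of_eq (congrArg _ (by omega))) (c3.trans ?_)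
    exact Nat.add_le_add_left (min_le_left _ _) _
  have key : ∀ i, dig (K + 2) (PM K PT (y (i + 1)).val ((g (i + 1))⁻¹.val / 57))
      (56 * ((g (i + 1))⁻¹.val % 57) + (y 0).val) ≤ ∑ j ∈ Finset.range (i + 1), w j := by
    intro i
    induction i with
    | zero =>
      have := step 0
      rw [g0, inv_one, val_one] at this
      simpa [(h2 _ r).1.1] using this
    | succ i ih =>
      have := (step (i + 1)).trans (Nat.add_le_add_right (qm _ _ _) _)
      rw [Finset.sum_range_succ]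
      omega
  obtain ⟨n, rfl⟩ := Nat.exists_eq_succ_of_ne_zero hn.ne'
  have := key n
  rw [show y (n + 1) = y 0 from hy, show g (n + 1) = 1 from gn, inv_one, val_one] at this
  have h3 := (h2 _ r).1.2
  simp only [Nat.zero_div, Nat.zero_mod, mul_zero, zero_add] at this
  simp only [Nat.succ_eq_add_one]
  omega

end Pool.Agent.Lib.Sims.M
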